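import Mathlib

namespace Pool.Agent.Results.MP_6800d9_co.MoserCovering

/-- the translates of the rectangles `w i × h i`, `i ∈ s`, by suitable vectors `(p i, q i)`
cover the box with lower left corner `(x, y)`, width `u` and height `v` -/
def Cov {ι : Type*} (s : Finset ι) (w h : ι → ℝ) (x y u v : ℝ) : Prop :=
  ∃ p q : ι → ℝ, ∀ a b : ℝ, x ≤ a → a ≤ x + u → y ≤ b → b ≤ y + v →
    ∃ i ∈ s, p i ≤ a ∧ a ≤ p i + w i ∧ q i ≤ b ∧ b ≤ q i + h i

theorem Cov.swap {ι : Type*} {s : Finset ι} {w h : ι → ℝ} {x y u v : ℝ}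
    (H : Cov s w h x y u v) : Cov s h w y x v u := by
  obtain ⟨p, q, H⟩ := H
  refine ⟨q, p, fun a b h1 h2 h3 h4 => ?_⟩
  obtain ⟨i, hi, c1, c2, c3, c4⟩ := H b a h3 h4 h1 h2
  exact ⟨i, hi, c3, c4, c1, c2⟩

theorem Cov.translate {ι : Type*} {s : Finset ι} {w h : ι → ℝ} {u v : ℝ}
    (H : Cov s w h 0 0 u v) (x y : ℝ) : Cov s w h x y u v := by
  obtain ⟨p, q, H⟩ := H
  refine ⟨fun i => x + p i, fun i => y + q i, fun a b h1 h2 h3 h4 => ?_⟩
  obtain ⟨i, hi, c1, c2, c3, c4⟩ := H (a - x) (b - y) (by linarith) (by linarith)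
    (by linarith) (by linarith)
  exact ⟨i, hi, by linarith, by linarith, by linarith, by linarith⟩

theorem Cov.mono {ι : Type*} {s t : Finset ι} {w h : ι → ℝ} {x y u v x' y' u' v' : ℝ}
    (H : Cov s w h x y u v) (hst : s ⊆ t) (hx : x ≤ x') (hy : y ≤ y')
    (hu : x' + u' ≤ x + u) (hv : y' + v' ≤ y + v) : Cov t w h x' y' u' v' := by
  obtain ⟨p, q, H⟩ := H
  refine ⟨p, q, fun a b h1 h2 h3 h4 => ?_⟩
  obtain ⟨i, hi, c⟩ := H a b (by linarith) (by linarith) (by linarith) (by linarith)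
  exact ⟨i, hst hi, c⟩

theorem Cov.hunion {ι : Type*} [DecidableEq ι] {s t : Finset ι} {w h : ι → ℝ}
    {x y u u' v : ℝ} (H1 : Cov s w h x y u v) (H2 : Cov t w h (x + u) y u' v)
    (hd : Disjoint s t) : Cov (s ∪ t) w h x y (u + u') v := by
  classical
  obtain ⟨p, q, H1⟩ := H1
  obtain ⟨p', q', H2⟩ := H2
  have hst : ∀ i ∈ t, i ∉ s := fun i hi his => (Finset.disjoint_left.mp hd) his hi
  refine ⟨fun i => if i ∈ s then p i else p' i, fun i => if i ∈ s then q i else q' i,
    fun a b h1 h2 h3 h4 => ?_⟩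
  rcases le_total a (x + u) with hau | hau
  · obtain ⟨i, hi, c⟩ := H1 a b h1 hau h3 h4
    refine ⟨i, Finset.mem_union_left _ hi, ?_⟩
    simpa only [hi, if_true] using c
  · obtain ⟨i, hi, c⟩ := H2 a b hau (by linarith) h3 h4
    refine ⟨i, Finset.mem_union_right _ hi, ?_⟩
    simpa only [hst i hi, if_false] using c

theorem Cov.vunion {ι : Type*} [DecidableEq ι] {s t : Finset ι} {w h : ι → ℝ}
    {x y u v v' : ℝ} (H1 : Cov s w h x y u v) (H2 : Cov t w h x (y + v) u v')
    (hd : Disjoint s t) : Cov (s ∪ t) w h x y u (v + v') :=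
  Cov.swap (Cov.hunion (Cov.swap H1) (Cov.swap H2) hd)

/-- rectangles of height at least `v` side by side -/
theorem row {ι : Type*} [DecidableEq ι] (w h : ι → ℝ) (s : Finset ι) (v : ℝ)
    (hs : s.Nonempty) (hh : ∀ i ∈ s, v ≤ h i) : Cov s w h 0 0 (∑ i ∈ s, w i) v := by
  classical
  induction hs using Finset.Nonempty.cons_induction with
  | singleton a =>
    refine ⟨fun _ => 0, fun _ => 0, fun x y h1 h2 h3 h4 => ⟨a, by simp, by linarith, ?_,
      by linarith, ?_⟩⟩
    · simpa using h2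
    · have := hh a (by simp)
      linarith
  | cons a s ha hs ih =>
    have h1 : Cov {a} w h 0 0 (w a) v := by
      refine ⟨fun _ => 0, fun _ => 0, fun x y h1 h2 h3 h4 => ⟨a, by simp, by linarith,
        by linarith, by linarith, ?_⟩⟩
      have := hh a (by simp)
      linarith
    have h2 := ih (fun i hi => hh i (by simp [hi]))
    have h3 := Cov.hunion h1 (h2.translate (0 + w a) 0)
      (Finset.disjoint_singleton_left.mpr ha)
    rw [Finset.sum_cons]
    refine h3.mono ?_ le_rfl le_rfl le_rfl le_rfl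
    intro i hi
    rw [Finset.mem_cons]
    simpa using hi

/-- rectangles of width at least `u` on top of each other -/
theorem col {ι : Type*} [DecidableEq ι] (w h : ι → ℝ) (s : Finset ι) (u : ℝ)
    (hs : s.Nonempty) (hw : ∀ i ∈ s, u ≤ w i) : Cov s w h 0 0 u (∑ i ∈ s, h i) :=
  Cov.swap (row h w s u hs hw)

theorem exists_prefix {ι : Type*} [DecidableEq ι] (w h : ι → ℝ) (s : Finset ι)
    (h1 : 1 ≤ ∑ i ∈ s, w i) :
    ∃ S e, S ⊆ s ∧ e ∈ s ∧ e ∉ S ∧ ∑ i ∈ S, w i < 1 ∧ 1 ≤ ∑ i ∈ S, w i + w e ∧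
      (∀ i ∈ S, h e ≤ h i) ∧ ∀ i ∈ s, i ∉ S → h i ≤ h e := by
  classical
  let C := s.powerset.filter (fun S => (∀ i ∈ S, ∀ j ∈ s \ S, h j ≤ h i) ∧ ∑ i ∈ S, w i < 1)
  have hCne : C.Nonempty := by
    refine ⟨∅, Finset.mem_filter.mpr ⟨Finset.mem_powerset.mpr (Finset.empty_subset s), ?_, ?_⟩⟩
    · intro i hi
      simp at hi
    · simp
  obtain ⟨S, hSC, hmax⟩ := Finset.exists_max_image C (fun S => S.card) hCne
  obtain ⟨hSs, hup, hlt⟩ := Finset.mem_filter.mp hSC
  have hSs := Finset.mem_powerset.mp hSs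
  have hne : (s \ S).Nonempty := by
    by_contra hcon
    rw [Finset.not_nonempty_iff_eq_empty, Finset.sdiff_eq_empty_iff_subset] at hcon
    have : S = s := Finset.Subset.antisymm hSs hcon
    rw [this] at hlt
    linarith
  obtain ⟨e, he, hemax⟩ := Finset.exists_max_image (s \ S) h hne
  obtain ⟨hes, heS⟩ := Finset.mem_sdiff.mp he
  refine ⟨S, e, hSs, hes, heS, hlt, ?_, fun i hi => hup i hi e he,
    fun i hi hiS => hemax i (Finset.mem_sdiff.mpr ⟨hi, hiS⟩)⟩
  by_contra hcon
  push Not at hcon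
  have hmem : insert e S ∈ C := by
    refine Finset.mem_filter.mpr ⟨Finset.mem_powerset.mpr
      (Finset.insert_subset hes hSs), ?_, ?_⟩
    · intro i hi j hj
      obtain ⟨hjs, hjn⟩ := Finset.mem_sdiff.mp hj
      have hjS : j ∉ S := fun h => hjn (Finset.mem_insert_of_mem h)
      rcases Finset.mem_insert.mp hi with rfl | hi
      · exact hemax j (Finset.mem_sdiff.mpr ⟨hjs, hjS⟩)
      · exact hup i hi j (Finset.mem_sdiff.mpr ⟨hjs, hjS⟩)
    · rw [Finset.sum_insert heS]
      linarith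
  have := hmax _ hmem
  rw [Finset.card_insert_of_notMem heS] at this
  omega

/-- the shelf argument -/
theorem finite_cover {ι : Type*} [DecidableEq ι] (w h : ι → ℝ) :
    ∀ s : Finset ι, ∀ H v : ℝ, 0 < H → 0 ≤ v → (∀ i ∈ s, 0 < w i ∧ w i ≤ 1) →
      (∀ i ∈ s, 0 < h i ∧ h i ≤ H) → H + 2 * v ≤ ∑ i ∈ s, w i * h i →
      Cov s w h 0 0 1 v := by
  classical
  intro s
  induction s using Finset.strongInduction with
  | H s IH =>
  intro H v hH hv hw hh hS
  have h1 : 1 ≤ ∑ i ∈ s, w i := by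
    have h2 : ∑ i ∈ s, w i * h i ≤ (∑ i ∈ s, w i) * H := by
      rw [Finset.sum_mul]
      exact Finset.sum_le_sum (fun i hi => mul_le_mul_of_nonneg_left (hh i hi).2 (hw i hi).1.le)
    nlinarith
  obtain ⟨S, e, hSs, hes, heS, hlt, hge, hup, hlow⟩ := exists_prefix w h s h1
  have hrow : Cov (insert e S) w h 0 0 1 (h e) := by
    have := row w h (insert e S) (h e) ⟨e, by simp⟩ (fun i hi => by
      rcases Finset.mem_insert.mp hi with rfl | hi
      · exact le_rfl
      · exact hup i hi)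
    rw [Finset.sum_insert heS] at this
    exact this.mono (Finset.Subset.refl _) le_rfl le_rfl (by linarith) le_rfl
  have hins : insert e S ⊆ s := Finset.insert_subset hes hSs
  rcases le_total v (h e) with hve | hve
  · exact hrow.mono hins le_rfl le_rfl le_rfl (by linarith)
  · have hAS : ∑ i ∈ S, w i * h i ≤ H := by
      have h2 : ∑ i ∈ S, w i * h i ≤ (∑ i ∈ S, w i) * H := by
        rw [Finset.sum_mul]
        exact Finset.sum_le_sum (fun i hi =>
          mul_le_mul_of_nonneg_left (hh i (hSs hi)).2 (hw i (hSs hi)).1.le)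
      nlinarith
    have hsum := Finset.sum_sdiff (f := fun i => w i * h i) hins
    rw [Finset.sum_insert heS] at hsum
    have hwe := hw e hes
    have hhe := hh e hes
    have hrest : Cov (s \ insert e S) w h 0 0 1 (v - h e) := by
      refine IH _ ?_ (h e) (v - h e) hhe.1 (by linarith) ?_ ?_ ?_
      · refine Finset.ssubset_iff_subset_ne.mpr ⟨Finset.sdiff_subset, fun hE => ?_⟩
        have : e ∈ s \ insert e S := by rw [hE]; exact hes
        exact (Finset.mem_sdiff.mp this).2 (Finset.mem_insert_self e S)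
      · intro i hi
        exact hw i (Finset.mem_sdiff.mp hi).1
      · intro i hi
        obtain ⟨his, hin⟩ := Finset.mem_sdiff.mp hi
        exact ⟨(hh i his).1, hlow i his (fun h => hin (Finset.mem_insert_of_mem h))⟩
      · nlinarith
    have hfin := Cov.vunion hrow (hrest.translate 0 (0 + h e)) Finset.disjoint_sdiff
    rw [Finset.union_sdiff_of_subset hins] at hfin
    exact hfin.mono (Finset.Subset.refl _) le_rfl le_rfl le_rfl (by linarith)

theorem finite_subfamily {ι : Type*} (w h : ι → ℝ) (hw : ∀ i, 0 < w i ∧ w i ≤ 1)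
    (hh : ∀ i, 0 < h i ∧ h i ≤ 1) (hA : HasSum (fun i => w i * h i) 3) :
    ∃ s : Finset ι, Cov s w h 0 0 1 1 := by
  classical
  by_contra hno
  push Not at hno
  have hpos : ∀ i, 0 < w i * h i := fun i => mul_pos (hw i).1 (hh i).1
  have hA' : Filter.Tendsto (fun s : Finset ι => ∑ i ∈ s, w i * h i) Filter.atTop (nhds 3) := by
    simpa [HasSum] using hA
  obtain ⟨F0, hF0⟩ := ((tendsto_order.1 hA').1 (11 / 4) (by norm_num)).exists
  have hF0ne : F0.Nonempty := by
    by_contra hcon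
    rw [Finset.not_nonempty_iff_eq_empty] at hcon
    rw [hcon, Finset.sum_empty] at hF0
    linarith
  obtain ⟨i1, hi1, hmin1⟩ := Finset.exists_min_image F0 w hF0ne
  obtain ⟨i2, hi2, hmin2⟩ := Finset.exists_min_image F0 h hF0ne
  set α := w i1 with hα
  set β := h i2 with hβ
  have hα0 : 0 < α := (hw i1).1
  have hα1 : α ≤ 1 := (hw i1).2
  have hβ0 : 0 < β := (hh i2).1
  have hβ1 : β ≤ 1 := (hh i2).2
  -- the widths below one of the large rectangles stay away from one
  obtain ⟨δ, hδ0, hδ⟩ : ∃ δ : ℝ, 0 < δ ∧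
      ∀ i, β ≤ h i → 1 / 2 ≤ w i → w i < 1 → w i ≤ 1 - δ := by
    set B : Set ι := {i | β ≤ h i ∧ 1 / 2 ≤ w i ∧ w i < 1} with hB
    have hBfin : B.Finite := by
      have h1 := hA.summable.tendsto_cofinite_zero
      have h2 : ∀ᶠ i in Filter.cofinite, w i * h i < β / 2 :=
        (tendsto_order.1 h1).2 (β / 2) (by linarith)
      have h3 : {i | ¬ w i * h i < β / 2}.Finite := h2
      refine h3.subset (fun i hi => ?_)
      obtain ⟨c1, c2, _⟩ := hi
      have : β / 2 ≤ w i * h i := by nlinarith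
      exact not_lt.mpr this
    rcases B.eq_empty_or_nonempty with hBe | hBne
    · refine ⟨1, one_pos, fun i c1 c2 c3 => ?_⟩
      have : i ∈ B := ⟨c1, c2, c3⟩
      rw [hBe] at this
      exact absurd this (Set.notMem_empty i)
    · obtain ⟨m, hm, hmax⟩ := Set.exists_max_image B w hBfin hBne
      refine ⟨1 - w m, by linarith [hm.2.2], fun i c1 c2 c3 => ?_⟩
      have := hmax i ⟨c1, c2, c3⟩
      linarith
  set γ := min (min δ (1 / 2)) (α / 2) with hγ
  have hγ0 : 0 < γ := lt_min (lt_min hδ0 (by norm_num)) (by linarith)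
  have hγ1 : γ ≤ δ := (min_le_left _ _).trans (min_le_left _ _)
  have hγ2 : γ ≤ 1 / 2 := (min_le_left _ _).trans (min_le_right _ _)
  have hγ3 : γ ≤ α / 2 := min_le_right _ _
  have hτ0 : 0 < β * γ := mul_pos hβ0 hγ0
  obtain ⟨F, hF, hF0F⟩ := (((tendsto_order.1 hA').1 (3 - β * γ) (by linarith)).and
    (Filter.eventually_ge_atTop F0)).exists
  have hF0F : F0 ⊆ F := hF0F
  have hsumw : ∀ s : Finset ι, ∑ i ∈ s, w i * h i ≤ ∑ i ∈ s, w i := fun s =>
    Finset.sum_le_sum (fun i _ => mul_le_of_le_one_right (hw i).1.le (hh i).2)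
  have hsumh : ∀ s : Finset ι, ∑ i ∈ s, w i * h i ≤ ∑ i ∈ s, h i := fun s =>
    Finset.sum_le_sum (fun i _ => mul_le_of_le_one_left (hh i).1.le (hw i).2)
  have hmono : ∀ s t : Finset ι, s ⊆ t → ∑ i ∈ s, w i * h i ≤ ∑ i ∈ t, w i * h i :=
    fun s t hst => Finset.sum_le_sum_of_subset_of_nonneg hst (fun i _ _ => (hpos i).le)
  have hw1 : 1 ≤ ∑ i ∈ F, w i := by
    have := hsumw F
    have := hmono F0 F hF0F
    linarith
  obtain ⟨S, e, hSF, heF, heS, hlt, hge, hup, hlow⟩ := exists_prefix w h F hw1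
  have hins : insert e S ⊆ F := Finset.insert_subset heF hSF
  set R := F \ insert e S with hR
  have hsum : ∑ i ∈ R, w i * h i + (w e * h e + ∑ i ∈ S, w i * h i) =
      ∑ i ∈ F, w i * h i := by
    have := Finset.sum_sdiff (f := fun i => w i * h i) hins
    rwa [Finset.sum_insert heS] at this
  have hrow : Cov (insert e S) w h 0 0 1 (h e) := by
    have := row w h (insert e S) (h e) ⟨e, by simp⟩ (fun i hi => by
      rcases Finset.mem_insert.mp hi with rfl | hi
      · exact le_rfl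
      · exact hup i hi)
    rw [Finset.sum_insert heS] at this
    exact this.mono (Finset.Subset.refl _) le_rfl le_rfl (by linarith) le_rfl
  have hhe := hh e
  have hwe := hw e
  have hRlt : ∑ i ∈ R, w i * h i < 2 - h e := by
    by_contra hcon
    push Not at hcon
    have hc := finite_cover w h R (h e) (1 - h e) hhe.1 (by linarith) (fun i _ => hw i)
      (fun i hi => ⟨(hh i).1, hlow i (Finset.mem_sdiff.mp hi).1
        (fun h' => (Finset.mem_sdiff.mp hi).2 (Finset.mem_insert_of_mem h'))⟩) (by linarith)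
    have hfin := Cov.vunion hrow (hc.translate 0 (0 + h e)) Finset.disjoint_sdiff
    exact hno _ (hfin.mono (Finset.Subset.refl _) le_rfl le_rfl le_rfl (by linarith))
  have hAS1 : ∑ i ∈ S, w i * h i < 1 := (hsumw S).trans_lt hlt
  have hAS2 : 1 - β * γ + h e * (1 - w e) < ∑ i ∈ S, w i * h i := by linarith
  have hbe : β ≤ h e := by
    by_contra hcon
    push Not at hcon
    have hsub : F0 ⊆ S := by
      intro i hi
      by_contra hiS
      have h1 := hlow i (hF0F hi) hiS
      have h2 := hmin2 i hi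
      linarith
    have := hmono F0 S hsub
    linarith
  have hwe1 : w e = 1 := by
    by_contra hne
    have hlt1 : w e < 1 := lt_of_le_of_ne hwe.2 hne
    have h1 : β * (1 - w e) < β * γ := by nlinarith
    have h2 : 1 - w e < γ := lt_of_mul_lt_mul_left h1 hβ0.le
    have h3 := hδ e hbe (by linarith) hlt1
    linarith
  have hhe1 : h e < 1 := by
    by_contra hcon
    push Not at hcon
    refine hno {e} ⟨fun _ => 0, fun _ => 0, fun a b c1 c2 c3 c4 => ⟨e, by simp, c1, ?_, c3, ?_⟩⟩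
    · linarith
    · linarith
  -- the almost full row
  set S' := S.filter (fun i => 1 - h e ≤ h i) with hS'
  set S'' := S.filter (fun i => ¬ 1 - h e ≤ h i) with hS''
  have hXY : ∑ i ∈ S', w i + ∑ i ∈ S'', w i = ∑ i ∈ S, w i :=
    Finset.sum_filter_add_sum_filter_not S _ _
  have hAXY : ∑ i ∈ S', w i * h i + ∑ i ∈ S'', w i * h i = ∑ i ∈ S, w i * h i :=
    Finset.sum_filter_add_sum_filter_not S _ _
  have hY0 : 0 ≤ ∑ i ∈ S'', w i := Finset.sum_nonneg (fun i _ => (hw i).1.le)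
  have hAY : ∑ i ∈ S'', w i * h i ≤ (∑ i ∈ S'', w i) * (1 - β) := by
    rw [Finset.sum_mul]
    refine Finset.sum_le_sum (fun i hi => mul_le_mul_of_nonneg_left ?_ (hw i).1.le)
    have := (Finset.mem_filter.mp hi).2
    linarith
  have hAX := hsumw S'
  have hpe : 0 ≤ h e * (1 - w e) := mul_nonneg hhe.1.le (by linarith)
  have hY : ∑ i ∈ S'', w i < γ := by
    have : β * ∑ i ∈ S'', w i < β * γ := by nlinarith
    exact lt_of_mul_lt_mul_left this hβ0.le
  have hX : 1 - α ≤ ∑ i ∈ S', w i := by nlinarith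
  have hS'ne : S'.Nonempty := by
    by_contra hcon
    rw [Finset.not_nonempty_iff_eq_empty] at hcon
    rw [hcon, Finset.sum_empty] at hAXY hX
    nlinarith
  have hc1 : Cov S' w h 0 0 (1 - α) (1 - h e) :=
    (row w h S' (1 - h e) hS'ne (fun i hi => (Finset.mem_filter.mp hi).2)).mono
      (Finset.Subset.refl _) le_rfl le_rfl (by linarith) le_rfl
  -- the gap
  set G := R ∩ F0 with hG
  have hGsub : F0 ⊆ insert e S ∪ G := by
    intro i hi
    by_cases hiS : i ∈ insert e S
    · exact Finset.mem_union_left _ hiS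
    · exact Finset.mem_union_right _ (Finset.mem_inter.mpr
        ⟨Finset.mem_sdiff.mpr ⟨hF0F hi, hiS⟩, hi⟩)
  have hdG : Disjoint (insert e S) G :=
    Finset.disjoint_of_subset_right Finset.inter_subset_left Finset.disjoint_sdiff
  have hAG : 11 / 4 < (w e * h e + ∑ i ∈ S, w i * h i) + ∑ i ∈ G, w i * h i := by
    have h1 := hmono _ _ hGsub
    rw [Finset.sum_union hdG, Finset.sum_insert heS] at h1
    linarith
  rw [hwe1] at hAG
  have hG2 := hsumh G
  have hGne : G.Nonempty := by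
    by_contra hcon
    rw [Finset.not_nonempty_iff_eq_empty] at hcon
    rw [hcon, Finset.sum_empty] at hAG
    linarith
  have hc2 : Cov G w h 0 0 α (1 - h e) :=
    (col w h G α hGne (fun i hi => hmin1 i (Finset.mem_inter.mp hi).2)).mono
      (Finset.Subset.refl _) le_rfl le_rfl le_rfl (by linarith)
  have hc3 : Cov (S' ∪ G) w h 0 0 (1 - α + α) (1 - h e) := by
    refine Cov.hunion hc1 (hc2.translate (0 + (1 - α)) 0) ?_
    exact Finset.disjoint_of_subset_left
      ((Finset.filter_subset _ _).trans (Finset.subset_insert _ _)) hdG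
  have hc4 : Cov {e} w h 0 (0 + (1 - h e)) (1 - α + α) (h e) :=
    ⟨fun _ => 0, fun _ => 0 + (1 - h e), fun a b d1 d2 d3 d4 =>
      ⟨e, by simp, d1, by linarith, d3, d4⟩⟩
  have hc5 := Cov.vunion hc3 hc4 (by
    rw [Finset.disjoint_singleton_right, Finset.mem_union, not_or]
    refine ⟨fun h' => heS (Finset.mem_filter.mp h').1, fun h' => ?_⟩
    exact (Finset.disjoint_left.mp hdG) (Finset.mem_insert_self e S) h')
  exact hno _ (hc5.mono (Finset.Subset.refl _) le_rfl le_rfl (by linarith) (by linarith))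

/-- the translate by the vector `v` of the closed rectangle `[0, w] × [0, h]` -/
def translate (w h : ℝ) (v : ℝ × ℝ) : Set (ℝ × ℝ) :=
  {z | v.1 ≤ z.1 ∧ z.1 ≤ v.1 + w ∧ v.2 ≤ z.2 ∧ z.2 ≤ v.2 + h}

/-- the closed unit square `[0, 1]²` -/
def unitSquare : Set (ℝ × ℝ) := {z | 0 ≤ z.1 ∧ z.1 ≤ 1 ∧ 0 ≤ z.2 ∧ z.2 ≤ 1}

/-- Every family of axis-parallel rectangles with sides at most `1` and total area `3`
covers the unit square by translates. -/
theorem result {ι : Type*} (w h : ι → ℝ) (hw : ∀ i, 0 < w i ∧ w i ≤ 1)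
    (hh : ∀ i, 0 < h i ∧ h i ≤ 1) (harea : HasSum (fun i => w i * h i) 3) :
    ∃ v : ι → ℝ × ℝ, unitSquare ⊆ ⋃ i, translate (w i) (h i) (v i) := by
  obtain ⟨s, p, q, H⟩ := finite_subfamily w h hw hh harea
  refine ⟨fun i => (p i, q i), fun z hz => ?_⟩
  obtain ⟨h1, h2, h3, h4⟩ := hz
  obtain ⟨i, _, c⟩ := H z.1 z.2 h1 (by linarith) h3 (by linarith)
  exact Set.mem_iUnion.mpr ⟨i, c⟩

end Pool.Agent.Results.MP_6800d9_co.MoserCovering
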